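import Pool.Agent.Results.MP_66fdf3_co.NormalSubgroups

set_option autoImplicit false

namespace Pool.Agent.Y49.NO.D8

open Pool.Agent.Results.MP_66fdf3_co.CommutatorEven
open Pool.Agent.Results.MP_66fdf3_co.NormalSubgroups

/-- residue class of a number modulo eight -/
def toZ8 (n : ℕ) : Fin 8 := ⟨n % 8, Nat.mod_lt _ (by decide)⟩

/-- residue class of a number modulo two -/
def toZ2 (n : ℕ) : Fin 2 := ⟨n % 2, Nat.mod_lt _ (by decide)⟩

/-- number of an element of the dihedral group of order sixteen -/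
def idE : DihedralGroup 8 → ℕ
  | .r i => (show Fin 8 from i).val
  | .sr i => 8 + (show Fin 8 from i).val

/-- element with a given number -/
def deE (n : ℕ) : DihedralGroup 8 :=
  if n < 8 then .r (show ZMod 8 from toZ8 n) else .sr (show ZMod 8 from toZ8 n)

/-- near-orthogonal mate of the dihedral group of order sixteen -/
def tabEn : List ℕ :=
  [0, 10, 12, 9, 4, 2, 5, 13, 7, 11, 3, 8, 14, 6, 1, 15, 1, 0, 14, 3, 9, 8, 4, 11, 5, 2, 15,
   13, 12, 10, 7, 6, 11, 7, 5, 0, 14, 15, 12, 8, 13, 3, 10, 4, 9, 2, 6, 1, 3, 14, 15, 10, 5, 9,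
   11, 1, 8, 12, 6, 0, 2, 7, 4, 13, 4, 1, 2, 6, 0, 3, 14, 15, 12, 5, 7, 10, 13, 8, 11, 9, 13,
   9, 7, 1, 12, 10, 6, 2, 14, 0, 11, 5, 4, 15, 3, 8, 15, 11, 6, 5, 3, 13, 8, 7, 2, 10, 4, 12,
   0, 1, 9, 14, 12, 8, 13, 7, 2, 6, 10, 4, 9, 1, 0, 3, 15, 11, 14, 5, 14, 6, 10, 13, 1, 0, 15,
   9, 3, 4, 8, 11, 7, 5, 12, 2, 10, 5, 11, 15, 13, 4, 7, 6, 0, 14, 9, 2, 1, 12, 8, 3, 6, 15, 8,
   14, 10, 12, 3, 0, 1, 9, 2, 7, 5, 4, 13, 11, 5, 2, 3, 8, 11, 1, 13, 12, 4, 7, 14, 15, 6, 9,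
   0, 10, 7, 4, 9, 2, 8, 5, 0, 3, 11, 6, 13, 1, 10, 14, 15, 12, 9, 3, 0, 11, 7, 14, 1, 5, 10,
   15, 12, 6, 8, 13, 2, 4, 2, 13, 4, 12, 15, 7, 9, 10, 6, 8, 1, 14, 11, 3, 5, 0, 8, 12, 1, 4,
   6, 11, 2, 14, 15, 13, 5, 9, 3, 0, 10, 7]

/-- complete mapping of the dihedral group of order sixteen -/
def tabEo : List ℕ :=
  [2, 4, 8, 6, 3, 9, 14, 12, 7, 0, 1, 11, 15, 5, 10, 13]

/-- the near-orthogonal mate -/
def sqE (a b : DihedralGroup 8) : DihedralGroup 8 :=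
  deE (tabEn.getD (16 * idE a + idE b) 0)

/-- the complete mapping -/
def thE (a : DihedralGroup 8) : DihedralGroup 8 := deE (tabEo.getD (idE a) 0)

theorem orth_E : HasOrthogonalMate (DihedralGroup 8) :=
  orth_of_map thE (by decide +kernel) (by decide +kernel)

theorem near_E : HasNearOrthogonalMate (DihedralGroup 8) :=
  near_of_table sqE (by decide +kernel) (by decide +kernel) (deE 0) (deE 4) (deE 0)
    (deE 4) (by decide +kernel) (by decide +kernel)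

end Pool.Agent.Y49.NO.D8
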