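import Pool.Agent.Results.MP_66fdf3_co.NormalSubgroups

set_option autoImplicit false

namespace Pool.Agent.Y49.NO.Q16

open Pool.Agent.Results.MP_66fdf3_co.CommutatorEven
open Pool.Agent.Results.MP_66fdf3_co.NormalSubgroups

/-- residue class of a number modulo eight -/
def toZ8 (n : ℕ) : Fin 8 := ⟨n % 8, Nat.mod_lt _ (by decide)⟩

/-- residue class of a number modulo two -/
def toZ2 (n : ℕ) : Fin 2 := ⟨n % 2, Nat.mod_lt _ (by decide)⟩

/-- number of an element of the generalised quaternion group of order sixteen -/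
def idF : QuaternionGroup 4 → ℕ
  | .a i => (show Fin 8 from i).val
  | .xa i => 8 + (show Fin 8 from i).val

/-- element with a given number -/
def deF (n : ℕ) : QuaternionGroup 4 :=
  if n < 8 then .a (show ZMod 8 from toZ8 n) else .xa (show ZMod 8 from toZ8 n)

/-- near-orthogonal mate of the generalised quaternion group of order sixteen -/
def tabFn : List ℕ :=
  [0, 3, 1, 12, 4, 7, 6, 9, 13, 8, 5, 2, 10, 14, 11, 15, 5, 11, 10, 15, 13, 14, 2, 3, 0, 1, 4,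
   9, 7, 12, 6, 8, 2, 4, 8, 14, 7, 10, 9, 11, 15, 13, 6, 5, 3, 0, 1, 12, 6, 13, 3, 5, 11, 12,
   4, 8, 10, 0, 1, 14, 15, 7, 9, 2, 4, 5, 13, 1, 0, 9, 15, 7, 8, 3, 14, 10, 12, 6, 2, 11, 8,
   10, 5, 7, 15, 13, 14, 1, 3, 11, 0, 4, 9, 2, 12, 6, 9, 8, 14, 0, 10, 2, 12, 6, 11, 4, 3, 15,
   13, 5, 7, 1, 12, 15, 2, 6, 1, 3, 11, 0, 7, 10, 8, 13, 5, 9, 14, 4, 3, 14, 4, 10, 6, 8, 5,
   12, 9, 15, 2, 7, 11, 1, 0, 13, 10, 0, 6, 9, 2, 1, 3, 15, 5, 14, 12, 11, 4, 8, 13, 7, 1, 12,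
   15, 11, 3, 6, 10, 2, 4, 9, 7, 0, 8, 13, 5, 14, 15, 7, 9, 2, 8, 0, 13, 14, 12, 5, 11, 6, 1,
   4, 3, 10, 14, 1, 12, 4, 5, 11, 8, 13, 6, 7, 9, 3, 2, 10, 15, 0, 13, 6, 7, 8, 9, 15, 1, 5,
   14, 2, 10, 12, 0, 11, 4, 3, 7, 2, 11, 3, 12, 5, 0, 4, 1, 6, 13, 8, 14, 15, 10, 9, 11, 9, 0,
   13, 14, 4, 7, 10, 2, 12, 15, 1, 6, 3, 8, 5]

/-- complete mapping of the generalised quaternion group of order sixteen -/
def tabFo : List ℕ :=
  [2, 4, 8, 6, 3, 9, 14, 12, 10, 13, 7, 0, 11, 5, 1, 15]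

/-- the near-orthogonal mate -/
def sqF (a b : QuaternionGroup 4) : QuaternionGroup 4 :=
  deF (tabFn.getD (16 * idF a + idF b) 0)

/-- the complete mapping -/
def thF (a : QuaternionGroup 4) : QuaternionGroup 4 := deF (tabFo.getD (idF a) 0)

theorem orth_F : HasOrthogonalMate (QuaternionGroup 4) :=
  orth_of_map thF (by decide +kernel) (by decide +kernel)

theorem near_F : HasNearOrthogonalMate (QuaternionGroup 4) :=
  near_of_table sqF (by decide +kernel) (by decide +kernel) (deF 0) (deF 4) (deF 0)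
    (deF 4) (by decide +kernel) (by decide +kernel)

end Pool.Agent.Y49.NO.Q16
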